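import Pool.Agent.Lib.CookLevin.TMLocal
import Pool.Agent.Lib.H50D3.Main
import Pool.Agent.Lib.H50D3.LangInj
import Pool.Agent.Lib.H50D3.GenPT

/-!
# Deciding distance 3 in the tree-compatibility graph of matchings is coNP-hard
-/

set_option autoImplicit false

namespace Pool.Agent.Results.MP_473a29_lc.DistThreeHard

open Turing Pool.Agent.PolyTime Pool.Agent.Lib.CookLevin Pool.Agent.D3

/-- The complement of every language in NP reduces to `L'`. -/
def CoNPHard (L' : Word → Prop) : Prop :=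
  ∀ L : Word → Prop, InNP L → PolyReduces (fun x => ¬ L x) L'

/-- **Main theorem.** DIST3 is coNP-hard. More precisely, every language `L` in NP has a
polynomial-time function whose values are instances of DIST3 of distance at most `3`, and `x` is in
`L` if and only if the distance is at most `2`. -/
theorem result :
    CoNPHard DIST3Lang ∧
    ∀ L : Word → Prop, InNP L → ∃ f : Word → Word,
      Nonempty (TM2ComputableInPolyTime (id : Word → List Bool) (id : Word → List Bool) f) ∧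
      ∀ x, ∃ n, 5 ≤ n ∧ ∃ (M M' : Matching n) (l l' : List (ℕ × ℕ)), Rep M l ∧ Rep M' l' ∧
        f x = enc n l l' ∧ M ≠ M' ∧ (dcg n).Reachable M M' ∧ (dcg n).dist M M' ≤ 3 ∧
        (L x ↔ (dcg n).dist M M' ≤ 2) := by
  have key : ∀ L : Word → Prop, InNP L → ∃ f : Word → Word,
      Nonempty (TM2ComputableInPolyTime (id : Word → List Bool) (id : Word → List Bool) f) ∧
      ∀ x, ∃ n, 5 ≤ n ∧ ∃ (M M' : Matching n) (l l' : List (ℕ × ℕ)), Rep M l ∧ Rep M' l' ∧
        f x = enc n l l' ∧ M ≠ M' ∧ (dcg n).Reachable M M' ∧ (dcg n).dist M M' ≤ 3 ∧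
        (L x ↔ (dcg n).dist M M' ≤ 2) := by
    intro L hL
    obtain ⟨g, hg, hg'⟩ := cnfSat_hard hL
    have h2 : PT fun x => instE (ren (g x)) := PT_instE_ren.comp hg
    refine ⟨fun x => instE (ren (g x)), PT.tmRaw h2, fun x => ?_⟩
    obtain ⟨h3, h4, h5⟩ := dist_inst (ren (g x))
    refine ⟨hN (ren (g x)), five_le _, mI false _, mI true _, arcs (pgW false (ren (g x))),
      arcs (pgW true (ren (g x))), rep_mOf _ _, rep_mOf _ _, instE_eq _, mI_ne _, h3, h4, ?_⟩
    rw [hg', ← cnfSat_ren, h5]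
  refine ⟨fun L hL => ?_, key⟩
  obtain ⟨f, hf, hf'⟩ := key L hL
  refine ⟨f, hf, fun x => ?_⟩
  obtain ⟨n, hn, M, M', l, l', h1, h2, h3, h4, h5, h6, h7⟩ := hf' x
  show ¬ L x ↔ DIST3Lang (f x)
  rw [h7]
  constructor
  · intro h8
    exact ⟨n, hn, M, M', l, l', h1, h2, h3, by omega⟩
  · rintro ⟨m, hm, A, A', k, k', g1, g2, g3, g4⟩ h8
    rw [h3] at g3
    obtain ⟨rfl, rfl, rfl⟩ := enc_inj h1.1 g1.1 g3
    rw [g1.unique h1, g2.unique h2] at g4
    omega

end Pool.Agent.Results.MP_473a29_lc.DistThreeHard
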